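import Pool.Agent.LRY.Stmts
import Pool.Agent.Helper74_LRN.MCX
import Pool.Agent.Helper98_LRN.RK1

/-!
# Squad LRY, row BDY (helper39)
-/

set_option autoImplicit false

open Polynomial NumberField
open Pool.Agent.Helper85_Leo (LeopoldtAt)
open Pool.Agent.LRG Pool.Agent.LRN

namespace Pool.Agent.LRY.H39

open Pool.Agent.LRY Pool.Agent.LRG.E

theorem bdy : BdyStmt := by
  intro rsf p _ E K hK hE hEK
  obtain ⟨hKn, hbad, hsub⟩ := hK
  obtain ⟨hEn, hEbad⟩ := hE
  obtain ⟨E', f, _, hfin, _⟩ := @rsf E K hKn hEK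
  have hE'bad : ¬ LeopoldtAt E' p := fun h =>
    hEbad (Pool.Agent.LRN.H74.lhm p E E' f.symm.toRingHom h)
  by_contra hcon
  rw [not_le] at hcon
  have h3 : 3 ≤ Module.finrank E' K := by
    by_contra h3
    rw [not_le] at h3
    have h4 : Module.finrank ℚ E * Module.finrank E' K ≤ Module.finrank ℚ E * 2 :=
      Nat.mul_le_mul_left _ (by omega)
    omega
  have hrank : 2 ≤ Units.rank E' := by
    by_contra h2
    exact hE'bad (Pool.Agent.LRN.H98.rk1 E' (by omega) p)
  exact hE'bad (hsub E' h3 hrank)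

end Pool.Agent.LRY.H39
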